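import Mathlib
import Pool.Agent.K1H93.KB.Ex
import Pool.Agent.Results.MP_c81d26_co.SigningsCount

/-!
# Komlós for matchings, base orderable matroids and other families with a block exchange property

Let `F` be a family of subsets of `[n]` such that for all `A, A' ∈ F` the symmetric difference is a disjoint union of
blocks of at most `k` elements, and the exchange (in `A`) of any union of these blocks gives again a member of `F`.
Examples with `k = 2`: the bases of a strongly base orderable matroid (a class which contains, for example, the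
transversal matroids and the gammoids);
the vertex sets which are covered by the matchings of an arbitrary graph. With `k = 1`: all subsets.

Let `v_1, …, v_n` be vectors in the Euclidean unit ball of `ℝ^d`.

(1) If all families of at most `(2 n + 1) ^ k` vectors of the unit ball have signings of value at most `B`, then for every
convex combination `x` of the indicator vectors of the members of `F` there is an `A ∈ F` such that all coordinates of
`∑_{j ∈ A} v_j - ∑ x_j v_j` are at most `k B`; `A` contains the `j` with `x_j = 1` and does not contain those with `x_j = 0`.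
If `A_1, …, A_r ∈ F` are pairwise disjoint and `r` is a power of `2`, there are pairwise disjoint `C_1, …, C_r ∈ F` with
the same union `U`, such that all coordinates of `∑_{j ∈ C_i} v_j - (1 / r) ∑_{j ∈ U} v_j` are at most `k B`.

(2) So the bound `C k^{5/4} (1 + log (1 + min n d))^{1/4}` holds unconditionally.

(3) Komlós's conjecture holds if and only if there is a constant `c` such that the bound `c k` holds for all these families.

(4), (5) The two examples have the exchange property with `k = 2`; (6) states (2) for them.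

For `k = 2` and the two examples: one can choose a matching of any graph (or a base of any strongly base orderable
matroid) such that the sum of the vectors of the covered vertices (of the elements of the base) is, up to
`O((1 + log (1 + min n d))^{1/4})` in each coordinate (`O(1)` if and only if Komlós's conjecture is true),
any prescribed point of the convex hull of all these sums, and one can split a disjoint union of `2^m` bases into
`2^m` bases with nearly equal sums.

Proof. Dyadic convex combinations; in each step the members are merged in pairs, and for all pairs together one signing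
is used, of the vectors `(∑_{j ∈ b ∩ A} v_j - ∑_{j ∈ b \ A} v_j) / k` of the blocks `b`. For matchings the blocks are the
sets of the ends of the paths in the union of two matchings.
-/

set_option autoImplicit false

namespace Pool.Agent.Results.MP_c81d26_co.BlockExchange

open Finset

/-- The vectors `v_1, …, v_n` lie in the closed Euclidean unit ball of `ℝ^d`. -/
def InBall {n d : ℕ} (v : Fin n → Fin d → ℝ) : Prop := ∀ i, ∑ c, v i c ^ 2 ≤ 1

/-- Some signing of the vectors has value at most `B`. -/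
def HasSigning {n d : ℕ} (v : Fin n → Fin d → ℝ) (B : ℝ) : Prop :=
  ∃ ε : Fin n → ℝ, (∀ i, ε i = 1 ∨ ε i = -1) ∧ ∀ c, |∑ i, ε i * v i c| ≤ B

/-- The exchange property with blocks of size `k`: for all members `A`, `A'` the symmetric difference is a disjoint union
of blocks of at most `k` elements, such that the exchange in `A` of any union of blocks gives a member again. -/
def Exchange {n : ℕ} (k : ℕ) (F : Set (Finset (Fin n))) : Prop :=
  ∀ A ∈ F, ∀ A' ∈ F, ∃ P : Finset (Finset (Fin n)), (∀ b ∈ P, b.card ≤ k) ∧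
    (P : Set (Finset (Fin n))).PairwiseDisjoint id ∧ P.biUnion id = symmDiff A A' ∧
    ∀ Q ⊆ P, symmDiff A (Q.biUnion id) ∈ F

/-- The convex hull of the indicator vectors of the members of `F`. -/
def polytope {n : ℕ} (F : Set (Finset (Fin n))) : Set (Fin n → ℝ) :=
  convexHull ℝ ((fun A : Finset (Fin n) => fun j => if j ∈ A then (1 : ℝ) else 0) '' F)

/-- Some member `A` of `F` agrees with `x` at the `j` with `x j = 0` or `x j = 1`, and all coordinates of
`∑_{j ∈ A} v_j - ∑ x_j v_j` are at most `R`. -/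
def HasMember {n d : ℕ} (v : Fin n → Fin d → ℝ) (F : Set (Finset (Fin n))) (x : Fin n → ℝ) (R : ℝ) : Prop :=
  ∃ A ∈ F, (∀ j, (x j = 1 → j ∈ A) ∧ (x j = 0 → j ∉ A)) ∧ ∀ c, |∑ j ∈ A, v j c - ∑ j, x j * v j c| ≤ R

/-- Every system of `2 ^ m` pairwise disjoint members of `F` can be replaced by pairwise disjoint members with the same
union `U`, such that for each of them all coordinates of `∑ v_j - 2 ^ (-m) ∑_{j ∈ U} v_j` are at most `R`. -/
def HasSplitting {n d : ℕ} (v : Fin n → Fin d → ℝ) (F : Set (Finset (Fin n))) (R : ℝ) : Prop :=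
  ∀ (m : ℕ) (A : Fin (2 ^ m) → Finset (Fin n)), (∀ i, A i ∈ F) → (∀ i i', i ≠ i' → Disjoint (A i) (A i')) →
    ∃ C : Fin (2 ^ m) → Finset (Fin n), (∀ i, C i ∈ F) ∧ (∀ i i', i ≠ i' → Disjoint (C i) (C i')) ∧
      Finset.univ.biUnion C = Finset.univ.biUnion A ∧
      ∀ i c, |∑ j ∈ C i, v j c - (∑ j ∈ Finset.univ.biUnion A, v j c) / 2 ^ m| ≤ R

/-- The bases of a matroid. -/
def bases {n : ℕ} (M : Matroid (Fin n)) : Set (Finset (Fin n)) := {A | M.IsBase ↑A}

/-- Strongly base orderable matroids: for all bases `A`, `A'` there is a bijection `f` of `A \ A'` onto `A' \ A` such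
that `A` remains a base if any subset `X` of `A \ A'` is replaced by `f X`. -/
def StronglyBaseOrderable {n : ℕ} (M : Matroid (Fin n)) : Prop :=
  ∀ A A' : Set (Fin n), M.IsBase A → M.IsBase A' → ∃ f : Fin n → Fin n, Set.BijOn f (A \ A') (A' \ A) ∧
    ∀ X ⊆ A \ A', M.IsBase ((A \ X) ∪ f '' X)

/-- The vertex sets which are covered by the matchings of the graph `G`; a matching is given by the involution `m` which
exchanges the ends of its edges and fixes the other vertices. -/
def covered {n : ℕ} (G : SimpleGraph (Fin n)) : Set (Finset (Fin n)) :=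
  {A | ∃ m : Fin n → Fin n, (∀ j, m (m j) = j) ∧ (∀ j, m j ≠ j → G.Adj j (m j)) ∧ ∀ j, j ∈ A ↔ m j ≠ j}

theorem transfer (n d k : ℕ) (B : ℝ)
    (hB : ∀ K ≤ (2 * n + 1) ^ k, ∀ w : Fin K → Fin d → ℝ, InBall w → HasSigning w B)
    (v : Fin n → Fin d → ℝ) (F : Set (Finset (Fin n))) (hv : InBall v) (hF : Exchange k F) :
    (∀ x ∈ polytope F, HasMember v F x (k * B)) ∧ HasSplitting v F (k * B) := by
  classical
  have hB' : Pool.Agent.K1H93.KB.Bd ((2 * n + 1) ^ k) d B := hB
  have hF' : Pool.Agent.K1H93.KB.Toggle k F := hF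
  refine ⟨fun x hx => Pool.Agent.K1H93.KB.transfer hB' le_rfl hv hF' x hx, fun m A hA hd => ?_⟩
  obtain ⟨C, h1, h2, h3, h4⟩ := Pool.Agent.K1H93.KB.split hB' le_rfl hv hF' m (Fin (2 ^ m)) (Fintype.card_fin _) A hA hd
  refine ⟨C, h1, h2, ?_, fun i c => ?_⟩
  · ext j
    simp only [mem_biUnion, mem_univ, true_and]
    exact h3 j
  · have h5 := h4 i c
    have hB0 : 0 ≤ (k : ℝ) * B := by
      obtain ⟨ε, _, h⟩ := hB 0 (Nat.zero_le _) (fun i => i.elim0) (fun i => i.elim0)
      have := h c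
      simp only [univ_eq_empty, sum_empty, abs_zero] at this
      positivity
    have h2m : (0 : ℝ) < 2 ^ m := by positivity
    have h6 : ∑ b, Pool.Agent.K1H93.KB.vs v (A b) c = ∑ j ∈ Finset.univ.biUnion A, v j c := by
      rw [sum_biUnion]
      · rfl
      · intro i _ i' _ hne
        exact hd i i' hne
    rw [h6] at h5
    change |2 ^ m * ∑ j ∈ C i, v j c - _| ≤ _ at h5
    have h7 : ∑ j ∈ C i, v j c - (∑ j ∈ Finset.univ.biUnion A, v j c) / 2 ^ m =
        (2 ^ m * ∑ j ∈ C i, v j c - ∑ j ∈ Finset.univ.biUnion A, v j c) / 2 ^ m := by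
      field_simp
    rw [h7, abs_div, abs_of_pos h2m, div_le_iff₀ h2m]
    refine h5.trans ?_
    rw [mul_comm ((k : ℝ) * B)]
    exact mul_le_mul_of_nonneg_right (by linarith) hB0

theorem uncond : ∃ C : ℝ, 0 ≤ C ∧ ∀ (n d : ℕ) (v : Fin n → Fin d → ℝ), InBall v →
    HasSigning v (C * (1 + Real.log (1 + (min n d : ℕ))) ^ (1 / 4 : ℝ)) := by
  obtain ⟨C, hC⟩ := Pool.Agent.Results.MP_c81d26_co.SigningsCount.part2
  refine ⟨|C| + 1, by positivity, fun n d v hv => ?_⟩
  have h1 := hC n d v 1 hv one_pos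
  have h2 : (0:ℝ) < (Pool.Agent.Results.MP_c81d26_co.SigningsCount.count v
      (C * (1 + Real.log (1 + (min n d : ℕ))) ^ (1 / 4 : ℝ) + 1) : ℝ) :=
    lt_of_lt_of_le (by positivity) h1
  have h3 : 0 < Pool.Agent.Results.MP_c81d26_co.SigningsCount.count v
      (C * (1 + Real.log (1 + (min n d : ℕ))) ^ (1 / 4 : ℝ) + 1) := by exact_mod_cast h2
  unfold Pool.Agent.Results.MP_c81d26_co.SigningsCount.count at h3
  obtain ⟨⟨ε, hε⟩⟩ := (Nat.card_pos_iff.1 h3).1
  refine ⟨fun i => ((ε i : ℤ) : ℝ),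
    fun i => Pool.Agent.Results.MP_c81d26_co.SigningsCount.units_real _, fun k => ?_⟩
  refine (hε k).trans ?_
  have h4 : (1:ℝ) ≤ (1 + Real.log (1 + (min n d : ℕ))) ^ (1 / 4 : ℝ) := by
    apply Real.one_le_rpow _ (by norm_num)
    have : 0 ≤ Real.log (1 + ((min n d : ℕ) : ℝ)) := Real.log_nonneg (by
      have : (0:ℝ) ≤ ((min n d : ℕ) : ℝ) := by positivity
      linarith)
    linarith
  have h5 : C * (1 + Real.log (1 + (min n d : ℕ))) ^ (1 / 4 : ℝ) ≤
      |C| * (1 + Real.log (1 + (min n d : ℕ))) ^ (1 / 4 : ℝ) :=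
    mul_le_mul_of_nonneg_right (le_abs_self C) (by linarith)
  linarith

/-- the logarithm of the number of block vectors -/
lemma log_bound {n d k K : ℕ} (hk : 1 ≤ k) (hK : K ≤ (2 * n + 1) ^ k) :
    1 + Real.log (1 + (min K d : ℕ)) ≤ 2 * k * (1 + Real.log (1 + (min n d : ℕ))) := by
  have hk1 : (1 : ℝ) ≤ k := by exact_mod_cast hk
  have hl : 0 ≤ Real.log (1 + ((min n d : ℕ) : ℝ)) := Real.log_nonneg (by
    have : (0:ℝ) ≤ ((min n d : ℕ) : ℝ) := by positivity
    linarith)
  rcases Nat.le_total d n with h | h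
  · have h1 : ((min K d : ℕ) : ℝ) ≤ ((min n d : ℕ) : ℝ) := by
      rw [min_eq_right h]
      exact_mod_cast min_le_right K d
    have h2 : Real.log (1 + ((min K d : ℕ) : ℝ)) ≤ Real.log (1 + ((min n d : ℕ) : ℝ)) := by
      apply Real.log_le_log
      · positivity
      · linarith
    nlinarith
  · rw [min_eq_left h] at hl ⊢
    have h1 : 1 + (min K d : ℕ) ≤ (2 * n + 2) ^ k := by
      have h2 : (2 * n + 1) ^ k < (2 * n + 2) ^ k := Nat.pow_lt_pow_left (by omega) (by omega)
      have := min_le_left K d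
      omega
    have h2 : (1 : ℝ) + ((min K d : ℕ) : ℝ) ≤ (2 * (1 + n)) ^ k := by
      have : ((1 + (min K d : ℕ) : ℕ) : ℝ) ≤ (((2 * n + 2) ^ k : ℕ) : ℝ) := by exact_mod_cast h1
      push_cast at this
      push_cast
      calc _ ≤ _ := this
        _ = _ := by ring
    have h3 : Real.log (1 + ((min K d : ℕ) : ℝ)) ≤ k * (Real.log 2 + Real.log (1 + n)) := by
      have h4 := Real.log_le_log (by positivity) h2
      rw [Real.log_pow, Real.log_mul (by norm_num) (by positivity)] at h4
      exact h4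
    have h5 : Real.log 2 ≤ 1 := by
      have := Real.log_two_lt_d9
      linarith
    have h6 : (k : ℝ) * Real.log 2 ≤ k := by nlinarith
    nlinarith

theorem part2 : ∃ C : ℝ, ∀ (n d k : ℕ) (v : Fin n → Fin d → ℝ) (F : Set (Finset (Fin n))), InBall v → Exchange k F →
    (∀ x ∈ polytope F, HasMember v F x (C * (k : ℝ) ^ (5 / 4 : ℝ) * (1 + Real.log (1 + (min n d : ℕ))) ^ (1 / 4 : ℝ))) ∧
    HasSplitting v F (C * (k : ℝ) ^ (5 / 4 : ℝ) * (1 + Real.log (1 + (min n d : ℕ))) ^ (1 / 4 : ℝ)) := by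
  obtain ⟨C, hC0, hC⟩ := uncond
  refine ⟨2 * C, fun n d k v F hv hF => ?_⟩
  have h0 : (0:ℝ) ≤ ((min n d : ℕ) : ℝ) := by positivity
  have h1 : 0 ≤ Real.log (1 + ((min n d : ℕ) : ℝ)) := Real.log_nonneg (by linarith)
  rcases Nat.eq_zero_or_pos k with rfl | hk
  · -- blocks without elements
    have h := transfer n d 0 (C * (1 + Real.log (1 + (min 1 d : ℕ))) ^ (1 / 4 : ℝ)) (fun K hK w hw => by
      obtain ⟨ε, hε, h⟩ := hC K d w hw
      refine ⟨ε, hε, fun c => (h c).trans ?_⟩
      have h2 : ((min K d : ℕ) : ℝ) ≤ ((min 1 d : ℕ) : ℝ) := by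
        exact_mod_cast min_le_min_right d (by simpa using hK)
      have h3 : Real.log (1 + ((min K d : ℕ) : ℝ)) ≤ Real.log (1 + ((min 1 d : ℕ) : ℝ)) :=
        Real.log_le_log (by positivity) (by linarith)
      have h4 : 0 ≤ Real.log (1 + ((min K d : ℕ) : ℝ)) := Real.log_nonneg (by
        have : (0:ℝ) ≤ ((min K d : ℕ) : ℝ) := by positivity
        linarith)
      exact mul_le_mul_of_nonneg_left (Real.rpow_le_rpow (by linarith) (by linarith) (by norm_num)) hC0) v F hv hF
    have e : 2 * C * ((0 : ℕ) : ℝ) ^ (5 / 4 : ℝ) * (1 + Real.log (1 + (min n d : ℕ))) ^ (1 / 4 : ℝ) =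
        ((0 : ℕ) : ℝ) * (C * (1 + Real.log (1 + (min 1 d : ℕ))) ^ (1 / 4 : ℝ)) := by
      rw [Nat.cast_zero, Real.zero_rpow (by norm_num)]
      ring
    rw [e]
    exact h
  · have hk' : (0 : ℝ) < k := by exact_mod_cast hk
    have h := transfer n d k (2 * C * (k : ℝ) ^ (1 / 4 : ℝ) * (1 + Real.log (1 + (min n d : ℕ))) ^ (1 / 4 : ℝ))
      (fun K hK w hw => by
      obtain ⟨ε, hε, h⟩ := hC K d w hw
      refine ⟨ε, hε, fun c => (h c).trans ?_⟩
      have h2 := log_bound (d := d) hk hK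
      have h4 : 0 ≤ Real.log (1 + ((min K d : ℕ) : ℝ)) := Real.log_nonneg (by
        have : (0:ℝ) ≤ ((min K d : ℕ) : ℝ) := by positivity
        linarith)
      have h5 : (1 + Real.log (1 + ((min K d : ℕ) : ℝ))) ^ (1 / 4 : ℝ) ≤
          (2 * k * (1 + Real.log (1 + ((min n d : ℕ) : ℝ)))) ^ (1 / 4 : ℝ) :=
        Real.rpow_le_rpow (by linarith) h2 (by norm_num)
      rw [Real.mul_rpow (by positivity) (by linarith), Real.mul_rpow (by norm_num) hk'.le] at h5
      have h6 : (2 : ℝ) ^ (1 / 4 : ℝ) ≤ 2 := by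
        have := Real.rpow_le_rpow_of_exponent_le (x := 2) (by norm_num) (by norm_num : (1 / 4 : ℝ) ≤ 1)
        rwa [Real.rpow_one] at this
      have h7 : 0 ≤ (k : ℝ) ^ (1 / 4 : ℝ) := by positivity
      have h8 : 0 ≤ (1 + Real.log (1 + ((min n d : ℕ) : ℝ))) ^ (1 / 4 : ℝ) := by positivity
      calc C * (1 + Real.log (1 + ((min K d : ℕ) : ℝ))) ^ (1 / 4 : ℝ) ≤
            C * (2 ^ (1 / 4 : ℝ) * (k : ℝ) ^ (1 / 4 : ℝ) * (1 + Real.log (1 + ((min n d : ℕ) : ℝ))) ^ (1 / 4 : ℝ)) :=
            mul_le_mul_of_nonneg_left h5 hC0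
        _ ≤ C * (2 * (k : ℝ) ^ (1 / 4 : ℝ) * (1 + Real.log (1 + ((min n d : ℕ) : ℝ))) ^ (1 / 4 : ℝ)) := by gcongr
        _ = _ := by ring) v F hv hF
    have e : 2 * C * (k : ℝ) ^ (5 / 4 : ℝ) * (1 + Real.log (1 + (min n d : ℕ))) ^ (1 / 4 : ℝ) =
        (k : ℝ) * (2 * C * (k : ℝ) ^ (1 / 4 : ℝ) * (1 + Real.log (1 + (min n d : ℕ))) ^ (1 / 4 : ℝ)) := by
      have e2 : (k : ℝ) ^ (5 / 4 : ℝ) = k * (k : ℝ) ^ (1 / 4 : ℝ) := by
        rw [show (5 / 4 : ℝ) = 1 + 1 / 4 by norm_num, Real.rpow_add hk', Real.rpow_one]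
      rw [e2]
      ring
    rw [e]
    exact h

lemma all_exchange (n : ℕ) : Exchange 1 (Set.univ : Set (Finset (Fin n))) := by
  classical
  intro A _ A' _
  refine ⟨(symmDiff A A').image (fun j => {j}), ?_, ?_, ?_, fun Q _ => Set.mem_univ _⟩
  · intro b hb
    obtain ⟨j, _, rfl⟩ := mem_image.1 hb
    simp
  · intro b hb c hc hbc
    obtain ⟨i, _, rfl⟩ := mem_image.1 (mem_coe.1 hb)
    obtain ⟨j, _, rfl⟩ := mem_image.1 (mem_coe.1 hc)
    change Disjoint ({i} : Finset (Fin n)) {j}
    rw [disjoint_singleton]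
    rintro rfl
    exact hbc rfl
  · ext j
    simp

theorem part3 :
    (∃ c : ℝ, 0 < c ∧ ∀ (n d : ℕ) (v : Fin n → Fin d → ℝ), InBall v → HasSigning v c) ↔
    ∃ c : ℝ, 0 < c ∧ ∀ (n d k : ℕ) (v : Fin n → Fin d → ℝ) (F : Set (Finset (Fin n))), InBall v → Exchange k F →
      (∀ x ∈ polytope F, HasMember v F x (c * k)) ∧ HasSplitting v F (c * k) := by
  constructor
  · rintro ⟨c, hc, h⟩
    refine ⟨c, hc, fun n d k v F hv hF => ?_⟩
    have := transfer n d k c (fun K _ w hw => h K d w hw) v F hv hF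
    rwa [mul_comm (k : ℝ) c] at this
  · rintro ⟨c, hc, h⟩
    refine ⟨2 * c, by positivity, fun n d v hv => ?_⟩
    obtain ⟨h1, -⟩ := h n d 1 v Set.univ hv (all_exchange n)
    have hx : (fun _ : Fin n => (1 / 2 : ℝ)) ∈ polytope (Set.univ : Set (Finset (Fin n))) := by
      have e : (fun _ : Fin n => (1 / 2 : ℝ)) = (1 / 2 : ℝ) • (fun j : Fin n => if j ∈ (Finset.univ : Finset (Fin n)) then (1 : ℝ) else 0) +
          (1 / 2 : ℝ) • (fun j : Fin n => if j ∈ (∅ : Finset (Fin n)) then (1 : ℝ) else 0) := by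
        funext j
        simp
      rw [e]
      have m1 : (fun j : Fin n => if j ∈ (Finset.univ : Finset (Fin n)) then (1 : ℝ) else 0) ∈
          polytope (Set.univ : Set (Finset (Fin n))) := subset_convexHull ℝ _ ⟨Finset.univ, Set.mem_univ _, rfl⟩
      have m2 : (fun j : Fin n => if j ∈ (∅ : Finset (Fin n)) then (1 : ℝ) else 0) ∈
          polytope (Set.univ : Set (Finset (Fin n))) := subset_convexHull ℝ _ ⟨∅, Set.mem_univ _, rfl⟩
      exact (convex_convexHull ℝ _) m1 m2 (by norm_num) (by norm_num) (by norm_num)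
    obtain ⟨A, _, _, hA⟩ := h1 _ hx
    refine ⟨fun j => if j ∈ A then 1 else -1, fun j => ?_, fun k => ?_⟩
    · show (if j ∈ A then (1 : ℝ) else -1) = 1 ∨ (if j ∈ A then (1 : ℝ) else -1) = -1
      split_ifs
      · left; rfl
      · right; rfl
    · have h4 : ∑ j, (if j ∈ A then (1 : ℝ) else -1) * v j k = 2 * (∑ j ∈ A, v j k - ∑ j, 1 / 2 * v j k) := by
        have h5 : ∑ j ∈ A, v j k = ∑ j, if j ∈ A then v j k else 0 := by
          rw [← sum_filter]
          congr 1
          ext j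
          simp
        rw [h5, ← sum_sub_distrib, mul_sum]
        refine Finset.sum_congr rfl fun j _ => ?_
        split_ifs <;> ring
      rw [h4, abs_mul, abs_two]
      have := hA k
      simp only [Nat.cast_one, mul_one] at this
      linarith

/-- the two examples, unconditionally -/
theorem part4 : ∃ C : ℝ, ∀ (n d : ℕ) (v : Fin n → Fin d → ℝ), InBall v →
    (∀ (G : SimpleGraph (Fin n)), ∀ x ∈ polytope (covered G),
      HasMember v (covered G) x (C * (1 + Real.log (1 + (min n d : ℕ))) ^ (1 / 4 : ℝ))) ∧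
    (∀ (M : Matroid (Fin n)), StronglyBaseOrderable M →
      (∀ x ∈ polytope (bases M), HasMember v (bases M) x (C * (1 + Real.log (1 + (min n d : ℕ))) ^ (1 / 4 : ℝ))) ∧
      HasSplitting v (bases M) (C * (1 + Real.log (1 + (min n d : ℕ))) ^ (1 / 4 : ℝ))) := by
  obtain ⟨C, hC⟩ := part2
  refine ⟨C * ((2 : ℕ) : ℝ) ^ (5 / 4 : ℝ), fun n d v hv => ⟨fun G x hx => ?_, fun M hM => ?_⟩⟩
  · exact (hC n d 2 v (covered G) hv (Pool.Agent.K1H93.KB.toggle_covered G)).1 x hx
  · exact hC n d 2 v (bases M) hv (Pool.Agent.K1H93.KB.toggle_sbo hM)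

/-- **Komlós for families with the block exchange property**: see the header of the file. -/
theorem result :
    (∀ (n d k : ℕ) (B : ℝ), (∀ K ≤ (2 * n + 1) ^ k, ∀ w : Fin K → Fin d → ℝ, InBall w → HasSigning w B) →
      ∀ (v : Fin n → Fin d → ℝ) (F : Set (Finset (Fin n))), InBall v → Exchange k F →
        (∀ x ∈ polytope F, HasMember v F x (k * B)) ∧ HasSplitting v F (k * B)) ∧
    (∃ C : ℝ, ∀ (n d k : ℕ) (v : Fin n → Fin d → ℝ) (F : Set (Finset (Fin n))), InBall v → Exchange k F →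
      (∀ x ∈ polytope F, HasMember v F x (C * (k : ℝ) ^ (5 / 4 : ℝ) * (1 + Real.log (1 + (min n d : ℕ))) ^ (1 / 4 : ℝ))) ∧
      HasSplitting v F (C * (k : ℝ) ^ (5 / 4 : ℝ) * (1 + Real.log (1 + (min n d : ℕ))) ^ (1 / 4 : ℝ))) ∧
    ((∃ c : ℝ, 0 < c ∧ ∀ (n d : ℕ) (v : Fin n → Fin d → ℝ), InBall v → HasSigning v c) ↔
      ∃ c : ℝ, 0 < c ∧ ∀ (n d k : ℕ) (v : Fin n → Fin d → ℝ) (F : Set (Finset (Fin n))), InBall v → Exchange k F →
        (∀ x ∈ polytope F, HasMember v F x (c * k)) ∧ HasSplitting v F (c * k)) ∧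
    (∀ (n : ℕ) (M : Matroid (Fin n)), StronglyBaseOrderable M → Exchange 2 (bases M)) ∧
    (∀ (n : ℕ) (G : SimpleGraph (Fin n)), Exchange 2 (covered G)) ∧
    (∃ C : ℝ, ∀ (n d : ℕ) (v : Fin n → Fin d → ℝ), InBall v →
      (∀ (G : SimpleGraph (Fin n)), ∀ x ∈ polytope (covered G),
        HasMember v (covered G) x (C * (1 + Real.log (1 + (min n d : ℕ))) ^ (1 / 4 : ℝ))) ∧
      (∀ (M : Matroid (Fin n)), StronglyBaseOrderable M →
        (∀ x ∈ polytope (bases M), HasMember v (bases M) x (C * (1 + Real.log (1 + (min n d : ℕ))) ^ (1 / 4 : ℝ))) ∧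
        HasSplitting v (bases M) (C * (1 + Real.log (1 + (min n d : ℕ))) ^ (1 / 4 : ℝ)))) :=
  ⟨transfer, part2, part3, fun _ _ hM => Pool.Agent.K1H93.KB.toggle_sbo hM,
    fun _ G => Pool.Agent.K1H93.KB.toggle_covered G, part4⟩

end Pool.Agent.Results.MP_c81d26_co.BlockExchange
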