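import Mathlib
import Pool.Agent.K1H87.KT.Boxes

/-!
# The Komlós problem: a prescribed bound for every coordinate, in infinite dimension

Let `v_1, …, v_n` be vectors in the unit ball of `ℓ²` (sequences `v_j (0), v_j (1), …`) with entries
of absolute value at most `δ ≤ 1`, let `x ∈ [-1,1]^n`, let `r_k` be the sum of the `v_j (k)²` over
the `j` with `|x_j| < 1` and put `D = δ (1 + log (1/δ))^(3/2)`.

There is an absolute constant `C` such that the following holds.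

(1) If `λ_0, λ_1, … ≥ 1` are reals with `∑_k min (1, r_k) exp (-max (λ_k⁴, (λ_k / D)²)) ≤ 1`, then
there are signs `ε_j` with `ε_j = x_j` if `|x_j| = 1` such that for every `k` the `k`-th coordinate
of `∑ (ε_j - x_j) v_j` is at most `C λ_k` in absolute value.

(2) There are signs for which the `k`-th coordinate is at most
`C min ((1 + log (1 + k))^(1/4), 1 + D (1 + log (1 + k))^(1/2))` for every `k`.

There is no dependence on `n`, and there is no dimension. In (2) the order of the coordinates is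
arbitrary, so any finite number of coordinates chosen in advance can be made `O(1)` while each of
the other coordinates obeys the best known bound.
-/

set_option autoImplicit false

namespace Pool.Agent.Results.MP_c81d26_co.PrescribedBounds

open Finset

/-- The sequences `v_1, …, v_n` lie in the closed unit ball of `ℓ²`. -/
def InBall {n : ℕ} (v : Fin n → ℕ → ℝ) : Prop := ∀ (j : Fin n) (d : ℕ), ∑ k ∈ range d, v j k ^ 2 ≤ 1

/-- The `k`-th coordinate of `∑ (ε_j - x_j) v_j`. -/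
noncomputable def coord {n : ℕ} (v : Fin n → ℕ → ℝ) (x : Fin n → ℝ) (ε : Fin n → ℤˣ)
    (k : ℕ) : ℝ := ∑ j, (((ε j : ℤ) : ℝ) - x j) * v j k

/-- The sum of the squares of the `k`-th coordinates of the vectors `v_j` with `|x_j| < 1`. -/
noncomputable def rowSq {n : ℕ} (v : Fin n → ℕ → ℝ) (x : Fin n → ℝ) (k : ℕ) : ℝ :=
  ∑ j, if |x j| < 1 then v j k ^ 2 else 0

/-- The number `D = δ (1 + log (1/δ))^(3/2)`. -/
noncomputable def flat (δ : ℝ) : ℝ := δ * (1 + Real.log (1 / δ)) ^ (3 / 2 : ℝ)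

theorem lam_inv (δ : ℝ) (h0 : 0 < δ) (h1 : δ ≤ 1) :
    1 / Pool.Agent.K1H87.KT.lam0 (1 / δ ^ 2) ≤ 8 * flat δ ^ 2 := by
  have hlog : 0 ≤ Real.log (1 / δ) := Real.log_nonneg (by rw [le_div_iff₀ h0]; linarith)
  unfold flat
  set y : ℝ := 1 + Real.log (1 / δ) with hy
  have hy1 : 1 ≤ y := by linarith
  have hy0 : 0 < y := by linarith
  have h2 : (y ^ (3 / 2 : ℝ)) ^ 2 = y ^ 3 := by
    rw [← Real.rpow_natCast, ← Real.rpow_mul hy0.le, ← Real.rpow_natCast]
    norm_num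
  rw [mul_pow, h2]
  have h4 : Real.log (1 / δ ^ 2) = 2 * Real.log (1 / δ) := by
    rw [one_div, one_div, Real.log_inv, Real.log_inv, Real.log_pow]
    push_cast
    ring
  have h3 : 1 / (8 * δ ^ 2 * y ^ 3) ≤ Pool.Agent.K1H87.KT.lam0 (1 / δ ^ 2) := by
    refine le_trans ?_ (le_max_right _ _)
    rw [h4, div_div]
    apply one_div_le_one_div_of_le
    · have : 0 < 1 + 2 * Real.log (1 / δ) := by linarith
      positivity
    · have h5 : (1 + 2 * Real.log (1 / δ)) ^ 3 ≤ (2 * y) ^ 3 :=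
        pow_le_pow_left₀ (by linarith) (by rw [hy]; linarith) 3
      calc δ ^ 2 * (1 + 2 * Real.log (1 / δ)) ^ 3 ≤ δ ^ 2 * (2 * y) ^ 3 :=
            mul_le_mul_of_nonneg_left h5 (by positivity)
        _ = 8 * δ ^ 2 * y ^ 3 := by ring
  have h6 : 0 < 8 * δ ^ 2 * y ^ 3 := by positivity
  calc 1 / Pool.Agent.K1H87.KT.lam0 (1 / δ ^ 2) ≤ 1 / (1 / (8 * δ ^ 2 * y ^ 3)) :=
        one_div_le_one_div_of_le (by positivity) h3
    _ = 8 * (δ ^ 2 * y ^ 3) := by rw [one_div_one_div]; ring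

theorem flat_pos (δ : ℝ) (h0 : 0 < δ) (h1 : δ ≤ 1) : 0 < flat δ := by
  have hlog : 0 ≤ Real.log (1 / δ) := Real.log_nonneg (by rw [le_div_iff₀ h0]; linarith)
  unfold flat
  positivity

/-- numbers: the two bounds -/
theorem num (δ : ℝ) (h0 : 0 < δ) (h1 : δ ≤ 1) (N : ℕ) (hN : 1 ≤ N) (l X : ℝ) (hl : 1 ≤ l)
    (hX1 : X ≤ 20 * 140058 * Real.sqrt (Real.sqrt (Pool.Agent.K1H87.KT.YY N
        (max (l ^ 4) ((l / flat δ) ^ 2)))) + 4 * 10 ^ 6 * (1 - 1 / (1 + Real.log N)))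
    (hX2 : X ≤ 20 * 140058 * (1 + Real.sqrt (Pool.Agent.K1H87.KT.YY N
        (max (l ^ 4) ((l / flat δ) ^ 2)) / Pool.Agent.K1H87.KT.lam0 (1 / δ ^ 2)))
          + 4 * 10 ^ 6 * (1 - 1 / (1 + Real.log N))) : X ≤ 30000000 * l := by
  have hD := flat_pos δ h0 h1
  have hlam := Pool.Agent.K1H87.KT.lam0_ge (1 / δ ^ 2)
  have hinv := lam_inv δ h0 h1
  have hlogN : 0 ≤ Real.log (N : ℝ) := Real.log_nonneg (by exact_mod_cast hN)
  have hlast : 4 * 10 ^ 6 * (1 - 1 / (1 + Real.log (N : ℝ))) ≤ 4 * 10 ^ 6 := by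
    have : 0 ≤ 1 / (1 + Real.log (N : ℝ)) := by positivity
    linarith
  have hl4 : 1 ≤ l ^ 4 := one_le_pow₀ hl
  have hl2 : 1 ≤ l ^ 2 := one_le_pow₀ hl
  rcases le_total ((l / flat δ) ^ 2) (l ^ 4) with h | h
  · rw [max_eq_left h] at hX1
    have h2 : Pool.Agent.K1H87.KT.YY N (l ^ 4) ≤ 24 * l ^ 4 :=
      (min_le_left _ _).trans (by linarith)
    have h3 : Real.sqrt (Real.sqrt (Pool.Agent.K1H87.KT.YY N (l ^ 4))) ≤ 5 / 2 * l := by
      have h4 : Real.sqrt (Pool.Agent.K1H87.KT.YY N (l ^ 4)) ≤ (5 / 2 * l) ^ 2 := by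
        rw [Real.sqrt_le_left (by positivity)]
        calc Pool.Agent.K1H87.KT.YY N (l ^ 4) ≤ 24 * l ^ 4 := h2
          _ ≤ ((5 / 2 * l) ^ 2) ^ 2 := by nlinarith
      rw [Real.sqrt_le_left (by positivity)]
      exact h4
    linarith
  · rw [max_eq_right h] at hX2
    have h2 : Pool.Agent.K1H87.KT.YY N ((l / flat δ) ^ 2) ≤ 20 + 4 * (l / flat δ) ^ 2 :=
      min_le_left _ _
    have h3 : Real.sqrt (Pool.Agent.K1H87.KT.YY N ((l / flat δ) ^ 2)
        / Pool.Agent.K1H87.KT.lam0 (1 / δ ^ 2)) ≤ 15 / 2 * l := by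
      rw [Real.sqrt_le_left (by positivity)]
      have h4 : 0 ≤ 1 / Pool.Agent.K1H87.KT.lam0 (1 / δ ^ 2) := by positivity
      have h5 : 1 / Pool.Agent.K1H87.KT.lam0 (1 / δ ^ 2) ≤ 1 := by
        rw [div_le_one (by linarith)]; exact hlam
      have h6 : (l / flat δ) ^ 2 * (8 * flat δ ^ 2) = 8 * l ^ 2 := by
        rw [div_pow]
        field_simp
      have h7 : 0 ≤ (l / flat δ) ^ 2 := by positivity
      calc Pool.Agent.K1H87.KT.YY N ((l / flat δ) ^ 2) / Pool.Agent.K1H87.KT.lam0 (1 / δ ^ 2)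
          = Pool.Agent.K1H87.KT.YY N ((l / flat δ) ^ 2)
            * (1 / Pool.Agent.K1H87.KT.lam0 (1 / δ ^ 2)) := by ring
        _ ≤ (20 + 4 * (l / flat δ) ^ 2) * (1 / Pool.Agent.K1H87.KT.lam0 (1 / δ ^ 2)) :=
            mul_le_mul_of_nonneg_right h2 h4
        _ = 20 * (1 / Pool.Agent.K1H87.KT.lam0 (1 / δ ^ 2))
            + 4 * ((l / flat δ) ^ 2 * (1 / Pool.Agent.K1H87.KT.lam0 (1 / δ ^ 2))) := by ring
        _ ≤ 20 * 1 + 4 * ((l / flat δ) ^ 2 * (8 * flat δ ^ 2)) := by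
            have := mul_le_mul_of_nonneg_left hinv h7
            linarith
        _ = 20 + 32 * l ^ 2 := by rw [h6]; ring
        _ ≤ (15 / 2 * l) ^ 2 := by nlinarith
    linarith

/-- finite dimension -/
theorem finite_dim (n : ℕ) (v : Fin n → ℕ → ℝ) (δ : ℝ) (x : Fin n → ℝ)
    (hv : InBall v) (hδ0 : 0 < δ) (hδ1 : δ ≤ 1) (hent : ∀ j k, |v j k| ≤ δ) (hx : ∀ j, |x j| ≤ 1)
    (l : ℕ → ℝ) (hl : ∀ k, 1 ≤ l k)
    (hsum : ∀ d, ∑ k ∈ range d, min 1 (rowSq v x k) *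
      Real.exp (-max (l k ^ 4) ((l k / flat δ) ^ 2)) ≤ 1) (d : ℕ) :
    ∃ ε : Fin n → ℤˣ, (∀ j, |x j| = 1 → ((ε j : ℤ) : ℝ) = x j) ∧
      ∀ k : ℕ, k < d → |coord v x ε k| ≤ 30000000 * l k := by
  classical
  have hδ2 : 0 < δ ^ 2 := by positivity
  have ht : 1 ≤ 1 / δ ^ 2 := by
    rw [le_div_iff₀ hδ2]
    nlinarith
  have hst : Real.sqrt (1 / δ ^ 2) = 1 / δ := by
    rw [Real.sqrt_div zero_le_one, Real.sqrt_one, Real.sqrt_sq hδ0.le]
  have hrow : ∀ k, (∑ j : {j : Fin n // |x j| < 1}, (v j k / δ) ^ 2) / (1 / δ ^ 2)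
      = rowSq v x k := by
    intro k
    unfold rowSq
    rw [← Finset.sum_filter, Finset.sum_subtype (Finset.univ.filter (fun j => |x j| < 1))
      (p := fun j => |x j| < 1) (fun j => by simp) (fun j => v j k ^ 2), Finset.sum_div]
    refine Finset.sum_congr rfl fun j _ => ?_
    field_simp
  have hcard : Fintype.card {j : Fin n // |x j| < 1} ≤ max n 1 := by
    refine (Fintype.card_subtype_le _).trans ?_
    simp
  obtain ⟨y, hy1, -, hy3⟩ := Pool.Agent.K1H87.KT.boxes (1 / δ ^ 2) ht (max n 1)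
    (le_max_right _ _) {j : Fin n // |x j| < 1} d (fun k j => v j k / δ)
    (fun k j => by
      rw [abs_div, abs_of_pos hδ0, div_le_one hδ0]
      exact hent j k)
    (fun j => by
      simp only [div_pow]
      rw [← Finset.sum_div]
      apply div_le_div_of_nonneg_right _ hδ2.le
      have := hv j d
      rwa [Finset.sum_range] at this)
    (fun k => max (l k ^ 4) ((l k / flat δ) ^ 2))
    (fun k => le_max_of_le_right (sq_nonneg _))
    (by
      have := hsum d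
      rw [Finset.sum_range] at this
      simp only [hrow]
      exact this) (fun j => x j) (fun j => hx j) hcard
  have hsgn : ∀ j, ∃ u : ℤˣ, (|x j| = 1 → ((u : ℤ) : ℝ) = x j) ∧
      ∀ h : |x j| < 1, ((u : ℤ) : ℝ) = y ⟨j, h⟩ := by
    intro j
    rcases (hx j).lt_or_eq with h | h
    · rcases eq_or_eq_neg_of_abs_eq (hy1 ⟨j, h⟩) with h' | h'
      · exact ⟨1, fun h1 => absurd h1 h.ne, fun _ => by rw [h']; simp⟩
      · exact ⟨-1, fun h1 => absurd h1 h.ne, fun _ => by rw [h']; simp⟩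
    · rcases eq_or_eq_neg_of_abs_eq h with h' | h'
      · exact ⟨1, fun _ => by rw [h']; simp, fun h1 => absurd h h1.ne⟩
      · exact ⟨-1, fun _ => by rw [h']; simp, fun h1 => absurd h h1.ne⟩
  choose e he1 he2 using hsgn
  refine ⟨e, he1, fun k hk => ?_⟩
  obtain ⟨h1, h2⟩ := hy3 ⟨k, hk⟩
  have hco : ∑ j : {j : Fin n // |x j| < 1}, v j k / δ * (y j - x j)
      = coord v x e k * (1 / δ) := by
    have h3 : coord v x e k = ∑ j, if |x j| < 1 then (((e j : ℤ) : ℝ) - x j) * v j k else 0 := by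
      unfold coord
      refine Finset.sum_congr rfl fun j _ => ?_
      split_ifs with h
      · rfl
      · have h4 : |x j| = 1 := le_antisymm (hx j) (not_lt.1 h)
        rw [he1 j h4, sub_self, zero_mul]
    rw [h3, ← Finset.sum_filter, Finset.sum_subtype (Finset.univ.filter (fun j => |x j| < 1))
      (p := fun j => |x j| < 1) (fun j => by simp) (fun j => (((e j : ℤ) : ℝ) - x j) * v j k),
      Finset.sum_mul]
    refine Finset.sum_congr rfl fun j _ => ?_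
    rw [he2 j.1 j.2]
    field_simp
  simp only [] at h1 h2
  rw [hco, hst, abs_mul, abs_of_pos (by positivity : (0 : ℝ) < 1 / δ), mul_comm (1 / δ)] at h1 h2
  have hδi : (0 : ℝ) < 1 / δ := by positivity
  exact num δ hδ0 hδ1 (max n 1) (le_max_right _ _) (l k) _ (hl k)
    (le_of_mul_le_mul_right h1 hδi) (le_of_mul_le_mul_right h2 hδi)

/-- all coordinates -/
theorem main (n : ℕ) (v : Fin n → ℕ → ℝ) (δ : ℝ) (x : Fin n → ℝ)
    (hv : InBall v) (hδ0 : 0 < δ) (hδ1 : δ ≤ 1) (hent : ∀ j k, |v j k| ≤ δ) (hx : ∀ j, |x j| ≤ 1)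
    (l : ℕ → ℝ) (hl : ∀ k, 1 ≤ l k)
    (hsum : ∀ d, ∑ k ∈ range d, min 1 (rowSq v x k) *
      Real.exp (-max (l k ^ 4) ((l k / flat δ) ^ 2)) ≤ 1) :
    ∃ ε : Fin n → ℤˣ, (∀ j, |x j| = 1 → ((ε j : ℤ) : ℝ) = x j) ∧
      ∀ k : ℕ, |coord v x ε k| ≤ 30000000 * l k := by
  classical
  by_contra hcon
  push Not at hcon
  have hbad : ∀ ε : Fin n → ℤˣ, ∃ k : ℕ, (∀ j, |x j| = 1 → ((ε j : ℤ) : ℝ) = x j) →
      30000000 * l k < |coord v x ε k| := by
    intro ε
    by_cases h : ∀ j, |x j| = 1 → ((ε j : ℤ) : ℝ) = x j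
    · obtain ⟨k, hk⟩ := hcon ε h
      exact ⟨k, fun _ => hk⟩
    · exact ⟨0, fun h' => absurd h' h⟩
  choose κ hκ using hbad
  obtain ⟨ε, h1, h2⟩ := finite_dim n v δ x hv hδ0 hδ1 hent hx l hl hsum (∑ ε, κ ε + 1)
  have h3 := Finset.single_le_sum (f := κ) (fun _ _ => Nat.zero_le _) (Finset.mem_univ ε)
  exact absurd (h2 (κ ε) (by omega)) (not_le.2 (hκ ε h1))

/-- the sum for the ranked bound -/
theorem sum_sq (d : ℕ) : ∑ k ∈ range (d + 1), (1 / (1 + (k : ℝ)) ^ 2) ≤ 2 - 1 / (1 + (d : ℝ)) := by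
  induction d with
  | zero => norm_num
  | succ d ih =>
    rw [Finset.sum_range_succ]
    have hd : (0 : ℝ) ≤ d := Nat.cast_nonneg d
    have h1 : 1 / (1 + ((d + 1 : ℕ) : ℝ)) ^ 2 ≤ 1 / (1 + (d : ℝ)) - 1 / (1 + ((d + 1 : ℕ) : ℝ)) := by
      push_cast
      have h2 : 1 / (1 + (d : ℝ)) - 1 / (1 + ((d : ℝ) + 1)) = 1 / ((1 + (d : ℝ)) * (1 + ((d : ℝ) + 1))) := by
        field_simp
        ring
      rw [h2]
      apply one_div_le_one_div_of_le (by positivity)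
      nlinarith
    linarith

/-- the numbers of the ranked bound -/
theorem rank_num (D : ℝ) (hD : 0 < D) (k : ℕ) :
    2 * (1 + Real.log (1 + k)) ≤
      max ((2 * min ((1 + Real.log (1 + k)) ^ (1 / 4 : ℝ))
        (1 + D * (1 + Real.log (1 + k)) ^ (1 / 2 : ℝ))) ^ 4)
        ((2 * min ((1 + Real.log (1 + k)) ^ (1 / 4 : ℝ))
        (1 + D * (1 + Real.log (1 + k)) ^ (1 / 2 : ℝ)) / D) ^ 2) := by
  have hk0 : (0 : ℝ) ≤ k := Nat.cast_nonneg k
  set L : ℝ := 1 + Real.log (1 + k) with hL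
  have hL1 : 1 ≤ L := by
    have : 0 ≤ Real.log (1 + (k : ℝ)) := Real.log_nonneg (by linarith)
    linarith
  have hL0 : 0 ≤ L := by linarith
  have e4 : (L ^ (1 / 4 : ℝ)) ^ 4 = L := by
    rw [← Real.rpow_natCast, ← Real.rpow_mul hL0]
    norm_num
  have e2 : (L ^ (1 / 2 : ℝ)) ^ 2 = L := by
    rw [← Real.rpow_natCast, ← Real.rpow_mul hL0]
    norm_num
  have p2 : 0 ≤ L ^ (1 / 2 : ℝ) := by positivity
  rcases le_total (L ^ (1 / 4 : ℝ)) (1 + D * L ^ (1 / 2 : ℝ)) with h | h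
  · rw [min_eq_left h]
    refine le_trans ?_ (le_max_left _ _)
    rw [mul_pow, e4]
    linarith
  · rw [min_eq_right h]
    refine le_trans ?_ (le_max_right _ _)
    have h3 : 2 * L ^ (1 / 2 : ℝ) ≤ 2 * (1 + D * L ^ (1 / 2 : ℝ)) / D := by
      rw [le_div_iff₀ hD]
      nlinarith
    calc 2 * L ≤ (2 * L ^ (1 / 2 : ℝ)) ^ 2 := by rw [mul_pow, e2]; linarith
      _ ≤ _ := pow_le_pow_left₀ (by positivity) h3 2

theorem result : ∃ C : ℝ, 0 < C ∧ ∀ (n : ℕ) (v : Fin n → ℕ → ℝ) (δ : ℝ) (x : Fin n → ℝ),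
    InBall v → 0 < δ → δ ≤ 1 → (∀ j k, |v j k| ≤ δ) → (∀ j, |x j| ≤ 1) →
    (∀ l : ℕ → ℝ, (∀ k, 1 ≤ l k) →
      (∀ d, ∑ k ∈ range d, min 1 (rowSq v x k) *
        Real.exp (-max (l k ^ 4) ((l k / flat δ) ^ 2)) ≤ 1) →
      ∃ ε : Fin n → ℤˣ, (∀ j, |x j| = 1 → ((ε j : ℤ) : ℝ) = x j) ∧
        ∀ k : ℕ, |coord v x ε k| ≤ C * l k) ∧
    ∃ ε : Fin n → ℤˣ, (∀ j, |x j| = 1 → ((ε j : ℤ) : ℝ) = x j) ∧
      ∀ k : ℕ, |coord v x ε k| ≤ C * min ((1 + Real.log (1 + k)) ^ (1 / 4 : ℝ))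
        (1 + flat δ * (1 + Real.log (1 + k)) ^ (1 / 2 : ℝ)) := by
  refine ⟨60000000, by norm_num, ?_⟩
  intro n v δ x hv hδ0 hδ1 hent hx
  have hD := flat_pos δ hδ0 hδ1
  refine ⟨fun l hl hsum => ?_, ?_⟩
  · obtain ⟨e, h1, h2⟩ := main n v δ x hv hδ0 hδ1 hent hx l hl hsum
    refine ⟨e, h1, fun k => (h2 k).trans ?_⟩
    have := hl k
    linarith
  · have hL1 : ∀ k : ℕ, 1 ≤ 1 + Real.log (1 + (k : ℝ)) := by
      intro k
      have hk0 : (0 : ℝ) ≤ k := Nat.cast_nonneg k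
      have : 0 ≤ Real.log (1 + (k : ℝ)) := Real.log_nonneg (by linarith)
      linarith
    obtain ⟨e, h1, h2⟩ := main n v δ x hv hδ0 hδ1 hent hx
      (fun k => 2 * min ((1 + Real.log (1 + k)) ^ (1 / 4 : ℝ))
        (1 + flat δ * (1 + Real.log (1 + k)) ^ (1 / 2 : ℝ)))
      (fun k => by
        have e1 : 1 ≤ (1 + Real.log (1 + (k : ℝ))) ^ (1 / 4 : ℝ) :=
          Real.one_le_rpow (hL1 k) (by norm_num)
        have e2 : 1 ≤ 1 + flat δ * (1 + Real.log (1 + (k : ℝ))) ^ (1 / 2 : ℝ) := by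
          have : 0 ≤ (1 + Real.log (1 + (k : ℝ))) ^ (1 / 2 : ℝ) :=
            Real.rpow_nonneg (by linarith [hL1 k]) _
          nlinarith
        have e3 := le_min e1 e2
        linarith)
      (fun d => by
        have hexp : Real.exp (-2) ≤ 1 / 2 := by
          rw [Real.exp_neg, inv_le_comm₀ (Real.exp_pos _) (by norm_num)]
          have := Real.add_one_le_exp (2 : ℝ)
          linarith
        have hterm : ∀ k ∈ range d, min 1 (rowSq v x k) *
            Real.exp (-max ((2 * min ((1 + Real.log (1 + k)) ^ (1 / 4 : ℝ))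
              (1 + flat δ * (1 + Real.log (1 + k)) ^ (1 / 2 : ℝ))) ^ 4)
              ((2 * min ((1 + Real.log (1 + k)) ^ (1 / 4 : ℝ))
              (1 + flat δ * (1 + Real.log (1 + k)) ^ (1 / 2 : ℝ)) / flat δ) ^ 2))
            ≤ 1 / 2 * (1 / (1 + (k : ℝ)) ^ 2) := by
          intro k _
          have hk0 : (0 : ℝ) ≤ k := Nat.cast_nonneg k
          have g1 := rank_num (flat δ) hD k
          have g2 : Real.exp (-max ((2 * min ((1 + Real.log (1 + k)) ^ (1 / 4 : ℝ))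
              (1 + flat δ * (1 + Real.log (1 + k)) ^ (1 / 2 : ℝ))) ^ 4)
              ((2 * min ((1 + Real.log (1 + k)) ^ (1 / 4 : ℝ))
              (1 + flat δ * (1 + Real.log (1 + k)) ^ (1 / 2 : ℝ)) / flat δ) ^ 2))
              ≤ Real.exp (-2) * (1 / (1 + (k : ℝ)) ^ 2) := by
            have g3 : Real.exp (-2) * (1 / (1 + (k : ℝ)) ^ 2)
                = Real.exp (-(2 * (1 + Real.log (1 + (k : ℝ))))) := by
              have : -(2 * (1 + Real.log (1 + (k : ℝ)))) = -2 + -(2 * Real.log (1 + (k : ℝ))) := by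
                ring
              rw [this, Real.exp_add, Real.exp_neg (2 * _), ← Real.log_rpow (by linarith),
                Real.exp_log (by positivity), one_div]
              norm_num
            rw [g3]
            exact Real.exp_le_exp.2 (neg_le_neg g1)
          have g4 : (0 : ℝ) ≤ 1 / (1 + (k : ℝ)) ^ 2 := by positivity
          calc _ ≤ 1 * (Real.exp (-2) * (1 / (1 + (k : ℝ)) ^ 2)) :=
                mul_le_mul (min_le_left _ _) g2 (Real.exp_pos _).le zero_le_one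
            _ ≤ 1 / 2 * (1 / (1 + (k : ℝ)) ^ 2) := by
                rw [one_mul]
                exact mul_le_mul_of_nonneg_right hexp g4
        refine (Finset.sum_le_sum hterm).trans ?_
        rw [← Finset.mul_sum]
        rcases Nat.eq_zero_or_pos d with h0 | h0
        · subst h0
          simp
        · obtain ⟨d', rfl⟩ : ∃ d', d = d' + 1 := ⟨d - 1, by omega⟩
          have g1 := sum_sq d'
          have g2 : (0 : ℝ) ≤ 1 / (1 + (d' : ℝ)) := by positivity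
          linarith)
    refine ⟨e, h1, fun k => (h2 k).trans (le_of_eq ?_)⟩
    ring

end Pool.Agent.Results.MP_c81d26_co.PrescribedBounds
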