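import Mathlib
import Pool.Agent.K1H87.KT.Dist

/-!
# The Komlós problem: signings with tails `exp (-c λ⁴)` in every coordinate

There are absolute constants `c, C > 0` such that for all vectors `v_1, …, v_n` in the Euclidean
unit ball of `ℝ^d` and all `x ∈ [-1,1]^n`, with `s_k (ε)` the `k`-th coordinate of
`∑ (ε_j - x_j) v_j` (for `x = 0` the signed sum):

(1) If the entries of the vectors are at most `δ ≤ 1` in absolute value, there is a probability
distribution on the signings `ε ∈ {-1,1}^n` such that for every coordinate `k` and every `λ ≥ C`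
`P (|s_k| > λ) ≤ C (∑_j v_j(k)²) exp (-c max (λ⁴, (λ / (δ (1 + log (1/δ))^(3/2)))²))`,
where the sum is over the `j` with `|x_j| < 1`; surely `ε_j = x_j` if `|x_j| = 1`.

(2) There is one signing with `∑_k exp (c s_k⁴) ≤ C d` and, for all real `q ≥ 1`,
`∑_k |s_k|^q ≤ d (C q^(1/4))^q`.

The number `n` is arbitrary and `c, C` do not depend on `n` and `d`. The bound
`O ((1 + log (min (n, d)))^(1/4))` for all coordinates is a consequence of (1), and so is
`|s_k| ≤ C' (1 + log (1 / w_k))^(1/4)` for all `k` for arbitrary weights with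
`∑_k w_k ∑_j v_j(k)² ≤ 1`.
-/

set_option autoImplicit false

namespace Pool.Agent.Results.MP_c81d26_co.QuarticTails

open Finset

/-- The vectors `v_1, …, v_n` lie in the closed Euclidean unit ball of `ℝ^d`. -/
def InBall {n d : ℕ} (v : Fin n → Fin d → ℝ) : Prop := ∀ j, ∑ k, v j k ^ 2 ≤ 1

/-- The `k`-th coordinate of `∑ (ε_j - x_j) v_j`. -/
noncomputable def coord {n d : ℕ} (v : Fin n → Fin d → ℝ) (x : Fin n → ℝ) (ε : Fin n → ℤˣ)
    (k : Fin d) : ℝ := ∑ j, (((ε j : ℤ) : ℝ) - x j) * v j k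

/-- The sum of the squares of the `k`-th coordinates of the vectors `v_j` with `|x_j| < 1`. -/
noncomputable def rowSq {n d : ℕ} (v : Fin n → Fin d → ℝ) (x : Fin n → ℝ) (k : Fin d) : ℝ :=
  ∑ j, if |x j| < 1 then v j k ^ 2 else 0

open Classical in
/-- The probability of the event `λ < |s_k|` for the distribution `P` on the signings. -/
noncomputable def probAbove {n d : ℕ} (P : (Fin n → ℤˣ) → ℝ) (v : Fin n → Fin d → ℝ)
    (x : Fin n → ℝ) (k : Fin d) (l : ℝ) : ℝ :=
  ∑ ε : Fin n → ℤˣ, if l < |coord v x ε k| then P ε else 0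

theorem lam_ge (δ : ℝ) (h0 : 0 < δ) (h1 : δ ≤ 1) (l : ℝ) :
    1 / 8 * (l / (δ * (1 + Real.log (1 / δ)) ^ (3 / 2 : ℝ))) ^ 2
      ≤ Pool.Agent.K1H87.KT.lam0 (1 / δ ^ 2) * l ^ 2 := by
  have hlog : 0 ≤ Real.log (1 / δ) := Real.log_nonneg (by rw [le_div_iff₀ h0]; linarith)
  set y : ℝ := 1 + Real.log (1 / δ) with hy
  have hy1 : 1 ≤ y := by linarith
  have hy0 : 0 < y := by linarith
  have h2 : (y ^ (3 / 2 : ℝ)) ^ 2 = y ^ 3 := by
    rw [← Real.rpow_natCast, ← Real.rpow_mul hy0.le, ← Real.rpow_natCast]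
    norm_num
  have h3 : 1 / 8 * (l / (δ * y ^ (3 / 2 : ℝ))) ^ 2 = (1 / (8 * δ ^ 2 * y ^ 3)) * l ^ 2 := by
    rw [div_pow, mul_pow, h2]
    field_simp
  rw [h3]
  apply mul_le_mul_of_nonneg_right _ (sq_nonneg l)
  refine le_trans ?_ (le_max_right _ _)
  have h4 : Real.log (1 / δ ^ 2) = 2 * Real.log (1 / δ) := by
    rw [one_div, one_div, Real.log_inv, Real.log_inv, Real.log_pow]
    push_cast
    ring
  rw [h4, div_div]
  apply one_div_le_one_div_of_le
  · have : 0 < 1 + 2 * Real.log (1 / δ) := by linarith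
    positivity
  · have h5 : (1 + 2 * Real.log (1 / δ)) ^ 3 ≤ (2 * y) ^ 3 :=
      pow_le_pow_left₀ (by linarith) (by rw [hy]; linarith) 3
    calc δ ^ 2 * (1 + 2 * Real.log (1 / δ)) ^ 3 ≤ δ ^ 2 * (2 * y) ^ 3 :=
          mul_le_mul_of_nonneg_left h5 (by positivity)
      _ = 8 * δ ^ 2 * y ^ 3 := by ring

theorem pow_le_exp' (q s c : ℝ) (hq : 1 ≤ q) (hc : 0 < c) :
    |s| ^ q ≤ (q / (4 * c)) ^ (q / 4) * Real.exp (c * s ^ 4) := by
  have hq0 : 0 < q / 4 := by linarith
  set y : ℝ := c * s ^ 4 with hy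
  have hs4 : s ^ 4 = |s| ^ 4 := by
    rw [show (4 : ℕ) = 2 * 2 by norm_num, pow_mul, pow_mul, sq_abs]
  have hy0 : 0 ≤ y := by rw [hy, hs4]; positivity
  have h1 : y / (q / 4) ≤ Real.exp (y / (q / 4)) := by
    have := Real.add_one_le_exp (y / (q / 4))
    linarith
  have h2 : (y / (q / 4)) ^ (q / 4) ≤ Real.exp y := by
    calc (y / (q / 4)) ^ (q / 4) ≤ Real.exp (y / (q / 4)) ^ (q / 4) :=
          Real.rpow_le_rpow (by positivity) h1 hq0.le
      _ = Real.exp y := by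
          rw [← Real.exp_mul]
          congr 1
          field_simp
  have h3 : |s| ^ q = (q / (4 * c)) ^ (q / 4) * (y / (q / 4)) ^ (q / 4) := by
    rw [← Real.mul_rpow (by positivity) (by positivity)]
    have h4 : q / (4 * c) * (y / (q / 4)) = |s| ^ 4 := by
      rw [hy, hs4]
      field_simp
    rw [h4, ← Real.rpow_natCast, ← Real.rpow_mul (abs_nonneg s)]
    congr 1
    push_cast
    ring
  rw [h3]
  exact mul_le_mul_of_nonneg_left h2 (by positivity)

theorem result : ∃ c C : ℝ, 0 < c ∧ 0 < C ∧ ∀ (n d : ℕ) (v : Fin n → Fin d → ℝ) (x : Fin n → ℝ),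
    InBall v → (∀ j, |x j| ≤ 1) →
    (∀ δ : ℝ, 0 < δ → δ ≤ 1 → (∀ j k, |v j k| ≤ δ) →
      ∃ P : (Fin n → ℤˣ) → ℝ, (∀ ε, 0 ≤ P ε) ∧ ∑ ε, P ε = 1 ∧
        (∀ ε, P ε ≠ 0 → ∀ j, |x j| = 1 → ((ε j : ℤ) : ℝ) = x j) ∧
        ∀ (k : Fin d) (l : ℝ), C ≤ l →
          probAbove P v x k l ≤ C * rowSq v x k *
            Real.exp (-(c * max (l ^ 4) ((l / (δ * (1 + Real.log (1 / δ)) ^ (3 / 2 : ℝ))) ^ 2)))) ∧
    ∃ ε : Fin n → ℤˣ, ∑ k, Real.exp (c * coord v x ε k ^ 4) ≤ C * d ∧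
      ∀ q : ℝ, 1 ≤ q → ∑ k, |coord v x ε k| ^ q ≤ d * (C * q ^ (1 / 4 : ℝ)) ^ q := by
  classical
  have hcc : 0 < Pool.Agent.K1H87.KT.cc := by unfold Pool.Agent.K1H87.KT.cc; positivity
  refine ⟨Pool.Agent.K1H87.KT.cc / 8, 10 ^ 14, by positivity, by positivity, ?_⟩
  intro n d v x hv hx
  refine ⟨?_, ?_⟩
  · intro δ hδ0 hδ1 hent
    have hδ2 : 0 < δ ^ 2 := by positivity
    have ht : 1 ≤ 1 / δ ^ 2 := by
      rw [le_div_iff₀ hδ2]
      nlinarith
    have hst : Real.sqrt (1 / δ ^ 2) = 1 / δ := by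
      rw [Real.sqrt_div zero_le_one, Real.sqrt_one, Real.sqrt_sq hδ0.le]
    obtain ⟨P, hP0, hP1, hP2, hP3⟩ := Pool.Agent.K1H87.KT.tails d n (fun k j => v j k / δ)
      (1 / δ ^ 2) ht
      (fun k j => by
        rw [abs_div, abs_of_pos hδ0, div_le_one hδ0]
        exact hent j k)
      (fun j => by
        simp only [div_pow]
        rw [← Finset.sum_div]
        exact div_le_div_of_nonneg_right (hv j) hδ2.le) x hx
    refine ⟨P, hP0, hP1, hP2, fun k l hl => ?_⟩
    have h1 := hP3 k l (by linarith)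
    have h2 : ∀ e : Fin n → ℤˣ, (∑ j, v j k / δ * (((e j : ℤ) : ℝ) - x j)) / Real.sqrt (1 / δ ^ 2)
        = coord v x e k := by
      intro e
      rw [hst]
      unfold coord
      rw [Finset.sum_div]
      refine Finset.sum_congr rfl fun j _ => ?_
      field_simp
    have h3 : Pool.Agent.K1H87.KT.en (fun k j => v j k / δ) x k / (1 / δ ^ 2) = rowSq v x k := by
      unfold Pool.Agent.K1H87.KT.en rowSq
      rw [Finset.sum_div]
      refine Finset.sum_congr rfl fun j _ => ?_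
      split_ifs
      · field_simp
      · simp
    simp only [h2] at h1
    rw [h3] at h1
    have hrow : 0 ≤ rowSq v x k := by
      unfold rowSq
      refine Finset.sum_nonneg fun j _ => ?_
      split_ifs
      · exact sq_nonneg _
      · exact le_rfl
    have h4 : Real.exp (-(Pool.Agent.K1H87.KT.cc *
          max (l ^ 4) (Pool.Agent.K1H87.KT.lam0 (1 / δ ^ 2) * l ^ 2)))
        ≤ Real.exp (-(Pool.Agent.K1H87.KT.cc / 8 *
          max (l ^ 4) ((l / (δ * (1 + Real.log (1 / δ)) ^ (3 / 2 : ℝ))) ^ 2))) := by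
      apply Real.exp_le_exp.2
      apply neg_le_neg
      have h5 := lam_ge δ hδ0 hδ1 l
      have hl4 : 0 ≤ l ^ 4 := by positivity
      have h6 : 1 / 8 * max (l ^ 4) ((l / (δ * (1 + Real.log (1 / δ)) ^ (3 / 2 : ℝ))) ^ 2)
          ≤ max (l ^ 4) (Pool.Agent.K1H87.KT.lam0 (1 / δ ^ 2) * l ^ 2) := by
        rw [mul_max_of_nonneg _ _ (by norm_num)]
        exact max_le_max (by linarith) h5
      calc Pool.Agent.K1H87.KT.cc / 8 *
          max (l ^ 4) ((l / (δ * (1 + Real.log (1 / δ)) ^ (3 / 2 : ℝ))) ^ 2)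
          = Pool.Agent.K1H87.KT.cc * (1 / 8 *
          max (l ^ 4) ((l / (δ * (1 + Real.log (1 / δ)) ^ (3 / 2 : ℝ))) ^ 2)) := by ring
        _ ≤ _ := mul_le_mul_of_nonneg_left h6 hcc.le
    unfold probAbove
    refine le_trans (le_of_eq ?_) (h1.trans ?_)
    · exact Finset.sum_congr rfl fun e _ => by congr
    · have h7 := Real.exp_pos (-(Pool.Agent.K1H87.KT.cc *
          max (l ^ 4) (Pool.Agent.K1H87.KT.lam0 (1 / δ ^ 2) * l ^ 2)))
      apply mul_le_mul _ h4 h7.le (by positivity)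
      apply mul_le_mul_of_nonneg_right (by norm_num) hrow
  · obtain ⟨e, he⟩ := Pool.Agent.K1H87.KT.average d n (fun k j => v j k) hv x hx
    have hco : ∀ k, ∑ j, v j k * (((e j : ℤ) : ℝ) - x j) = coord v x e k := by
      intro k
      unfold coord
      exact Finset.sum_congr rfl fun j _ => by ring
    simp only [hco] at he
    have hd : (0 : ℝ) ≤ d := Nat.cast_nonneg d
    have h1 : ∑ k, Real.exp (Pool.Agent.K1H87.KT.cc / 8 * coord v x e k ^ 4) ≤ 12 * d := by
      refine le_trans (Finset.sum_le_sum fun k _ => ?_) he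
      apply Real.exp_le_exp.2
      have : 0 ≤ coord v x e k ^ 4 := by positivity
      nlinarith
    refine ⟨e, h1.trans ?_, fun q hq => ?_⟩
    · apply mul_le_mul_of_nonneg_right (by norm_num) hd
    · set c : ℝ := Pool.Agent.K1H87.KT.cc / 8 with hc
      have hc0 : 0 < c := by positivity
      have h2 : ∑ k, |coord v x e k| ^ q ≤ (q / (4 * c)) ^ (q / 4) * (12 * d) := by
        refine (Finset.sum_le_sum fun k _ => pow_le_exp' q (coord v x e k) c hq hc0).trans ?_
        rw [← Finset.mul_sum]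
        exact mul_le_mul_of_nonneg_left h1 (by positivity)
      refine h2.trans ?_
      have hq0 : 0 ≤ q := by linarith
      have h3 : (12 : ℝ) ≤ 12 ^ q := by
        calc (12 : ℝ) = 12 ^ (1 : ℝ) := (Real.rpow_one _).symm
          _ ≤ 12 ^ q := Real.rpow_le_rpow_of_exponent_le (by norm_num) hq
      have h4 : (q / (4 * c)) ^ (q / 4) = ((1 / (4 * c)) ^ (1 / 4 : ℝ) * q ^ (1 / 4 : ℝ)) ^ q := by
        rw [← Real.mul_rpow (by positivity) hq0, ← Real.rpow_mul (by positivity)]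
        congr 1
        · ring
        · ring
      have h5 : (1 / (4 * c)) ^ (1 / 4 : ℝ) ≤ 8 * 10 ^ 12 := by
        have h6 : 1 / (4 * c) ≤ (8 * 10 ^ 12) ^ (4 : ℝ) := by
          rw [hc]
          unfold Pool.Agent.K1H87.KT.cc
          rw [show (4 : ℝ) = ((4 : ℕ) : ℝ) by norm_num, Real.rpow_natCast]
          norm_num
        calc (1 / (4 * c)) ^ (1 / 4 : ℝ) ≤ ((8 * 10 ^ 12 : ℝ) ^ (4 : ℝ)) ^ (1 / 4 : ℝ) :=
              Real.rpow_le_rpow (by positivity) h6 (by norm_num)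
          _ = 8 * 10 ^ 12 := by
              rw [← Real.rpow_mul (by norm_num)]
              norm_num
      have hqq : 0 ≤ q ^ (1 / 4 : ℝ) := Real.rpow_nonneg hq0 _
      obtain ⟨z, hz⟩ : ∃ z : ℝ, z = 8 * 10 ^ 12 * q ^ (1 / 4 : ℝ) := ⟨_, rfl⟩
      have hz0 : 0 ≤ z := by rw [hz]; exact mul_nonneg (by norm_num) hqq
      have h7 : ((1 / (4 * c)) ^ (1 / 4 : ℝ) * q ^ (1 / 4 : ℝ)) ^ q ≤ z ^ q := by
        apply Real.rpow_le_rpow (mul_nonneg (Real.rpow_nonneg (by positivity) _) hqq) _ hq0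
        rw [hz]
        exact mul_le_mul_of_nonneg_right h5 hqq
      have hzq : 0 ≤ z ^ q := Real.rpow_nonneg hz0 q
      calc (q / (4 * c)) ^ (q / 4) * (12 * d)
          ≤ z ^ q * (12 ^ q * d) := by
            rw [h4]
            exact mul_le_mul h7 (mul_le_mul_of_nonneg_right h3 hd) (by positivity) hzq
        _ = d * (z * 12) ^ q := by
            rw [Real.mul_rpow hz0 (by norm_num)]
            ring
        _ ≤ d * (10 ^ 14 * q ^ (1 / 4 : ℝ)) ^ q := by
            apply mul_le_mul_of_nonneg_left _ hd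
            apply Real.rpow_le_rpow (by positivity) _ hq0
            rw [hz]
            nlinarith

end Pool.Agent.Results.MP_c81d26_co.QuarticTails
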