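import Pool.Agent.K1H19.Kom2.Tail

/-!
# Random signings whose coordinates have quartic type tails
-/

namespace Pool.Agent.Results.MP_c81d26_co.RandomSignings

open Finset Real

/-- Coordinate `i` of `∑ j, (ε j - x j) v j`, where `ε j = 1` if `s j` is true and `-1` otherwise. -/
noncomputable def dev {d n : ℕ} (v : Fin n → EuclideanSpace ℝ (Fin d)) (x : Fin n → ℝ)
    (s : Fin n → Bool) (i : Fin d) : ℝ :=
  ∑ j, ((if s j then (1 : ℝ) else -1) - x j) * v j i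

/-- `β ^ (-2) / (1 + log (1 / β)) ^ 5`. -/
noncomputable def rate (β : ℝ) : ℝ := (1 / β) ^ 2 / (1 + Real.log (1 / β)) ^ 5

/-- The maximum of `u ^ 4 / (1 + log (1 + u)) ^ 2` and
`(u / β) ^ 2 / ((1 + log (1 / β)) ^ 3 * (1 + log (1 + u / β)) ^ 2)`. -/
noncomputable def gain (β u : ℝ) : ℝ :=
  max (u ^ 4 / (1 + Real.log (1 + u)) ^ 2)
    ((u / β) ^ 2 / ((1 + Real.log (1 / β)) ^ 3 * (1 + Real.log (1 + u / β)) ^ 2))

theorem col_le {d n : ℕ} (v : Fin n → EuclideanSpace ℝ (Fin d)) (hv : ∀ j, ‖v j‖ ≤ 1) (j : Fin n) :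
    ∑ i, (v j i) ^ 2 ≤ 1 := by
  have h1 := EuclideanSpace.norm_sq_eq (v j)
  have h2 : ∑ i, (v j i) ^ 2 = ‖v j‖ ^ 2 := by
    rw [h1]
    refine Finset.sum_congr rfl fun i _ => ?_
    rw [Real.norm_eq_abs, sq_abs]
  rw [h2]
  exact pow_le_one₀ (norm_nonneg _) (hv j)

theorem log_sq {β : ℝ} : Real.log ((1 / β) ^ 2) = 2 * Real.log (1 / β) := by
  rw [Real.log_pow]; norm_num

theorem rate_le {β : ℝ} (h0 : 0 < β) (h1 : β ≤ 1) :
    1 / 32 * rate β ≤ (1 / β) ^ 2 / (1 + Real.log ((1 / β) ^ 2)) ^ 5 := by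
  have hL : 0 ≤ Real.log (1 / β) := Real.log_nonneg (by rw [le_div_iff₀ h0]; linarith)
  unfold rate
  rw [log_sq]
  have h2 : (1 + 2 * Real.log (1 / β)) ^ 5 ≤ 32 * (1 + Real.log (1 / β)) ^ 5 := by
    calc (1 + 2 * Real.log (1 / β)) ^ 5 ≤ (2 * (1 + Real.log (1 / β))) ^ 5 :=
          pow_le_pow_left₀ (by linarith) (by linarith) 5
      _ = _ := by ring
  have h3 : 1 / 32 * ((1 / β) ^ 2 / (1 + Real.log (1 / β)) ^ 5)
      = (1 / β) ^ 2 / (32 * (1 + Real.log (1 / β)) ^ 5) := by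
    field_simp
  rw [h3]
  exact div_le_div_of_nonneg_left (by positivity) (by positivity) h2

theorem gain_le {β u : ℝ} (h0 : 0 < β) (h1 : β ≤ 1) (hu : 0 ≤ u) :
    1 / 32 * gain β u ≤ K19Kom2.G3 ((1 / β) ^ 2) (u / β) := by
  have hL : 0 ≤ Real.log (1 / β) := Real.log_nonneg (by rw [le_div_iff₀ h0]; linarith)
  have huβ : 0 ≤ u / β := by positivity
  have hl2 : 0 ≤ Real.log (1 + u / β) := Real.log_nonneg (by linarith)
  have hst : Real.sqrt ((1 / β) ^ 2) = 1 / β := Real.sqrt_sq (by positivity)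
  have e1 : u / β / (1 / β) = u := by field_simp
  unfold gain K19Kom2.G3
  rw [hst, e1, mul_max_of_nonneg _ _ (by norm_num : (0 : ℝ) ≤ 1 / 32)]
  refine max_le_max ?_ ?_
  · unfold K19Kom2.G4
    rw [abs_of_nonneg hu]
    have h2 : 0 ≤ u ^ 4 / (1 + Real.log (1 + u)) ^ 2 := by positivity
    linarith
  · unfold K19Kom2.G2
    rw [log_sq, abs_of_nonneg huβ]
    have h2 : (1 + 2 * Real.log (1 / β)) ^ 3 ≤ 32 * (1 + Real.log (1 / β)) ^ 3 := by
      calc (1 + 2 * Real.log (1 / β)) ^ 3 ≤ (2 * (1 + Real.log (1 / β))) ^ 3 :=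
            pow_le_pow_left₀ (by linarith) (by linarith) 3
        _ = 8 * (1 + Real.log (1 / β)) ^ 3 := by ring
        _ ≤ _ := by
          have : 0 ≤ (1 + Real.log (1 / β)) ^ 3 := by positivity
          linarith
    have h3 : 1 / 32 * ((u / β) ^ 2 / ((1 + Real.log (1 / β)) ^ 3 * (1 + Real.log (1 + u / β)) ^ 2))
        = (u / β) ^ 2 / ((32 * (1 + Real.log (1 / β)) ^ 3) * (1 + Real.log (1 + u / β)) ^ 2) := by
      rw [div_mul_div_comm, one_mul]
      congr 1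
      ring
    rw [h3]
    apply div_le_div_of_nonneg_left (by positivity) (by positivity)
    exact mul_le_mul_of_nonneg_right h2 (by positivity)

/-- Random signings. -/
theorem result : ∃ c K C : ℝ, 0 < c ∧ 0 < K ∧ 0 < C ∧
    ∀ (d n : ℕ) (v : Fin n → EuclideanSpace ℝ (Fin d)) (x : Fin n → ℝ) (β : ℝ),
      0 < β → β ≤ 1 → (∀ j, ‖v j‖ ≤ 1) → (∀ j i, |v j i| ≤ β) → (∀ j, |x j| ≤ 1) →
      (∃ w : (Fin n → Bool) → ℝ, (∀ s, 0 ≤ w s) ∧ ∑ s, w s = 1 ∧
        ∀ (i : Fin d) (u : ℝ), C ≤ u →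
          ∑ s ∈ Finset.univ.filter (fun s => u < |dev v x s i|), w s
            ≤ K * Real.exp (-(c * (rate β + gain β u)))) ∧
      (∀ σ : Equiv.Perm (Fin d), ∃ s : Fin n → Bool, ∀ m : ℕ, m ≤ d → ∀ u : ℝ, C ≤ u →
        ((Finset.univ.filter (fun i : Fin d => i.val < m ∧ u < |dev v x s (σ i)|)).card : ℝ)
          ≤ K * Real.exp (-(c * (rate β + gain β u))) * m) := by
  classical
  obtain ⟨c, K, C, hc, hK, hC, hM⟩ := K19Kom2.matrix
  refine ⟨c / 32, K, C, by positivity, hK, hC, ?_⟩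
  intro d n v x β hβ0 hβ1 hv hvβ hx
  have hβ : 1 ≤ 1 / β := by rw [le_div_iff₀ hβ0]; linarith
  have ht : (1 : ℝ) ≤ (1 / β) ^ 2 := one_le_pow₀ hβ
  have hst : Real.sqrt ((1 / β) ^ 2) = 1 / β := Real.sqrt_sq (by positivity)
  have hrow : ∀ (τ : Fin d → Fin d) (s : Fin n → Bool) (i : Fin d),
      ∑ j, (v j (τ i) / β) * ((if s j then (1 : ℝ) else -1) - x j) = dev v x s (τ i) / β := by
    intro τ s i
    unfold dev
    rw [Finset.sum_div]
    exact Finset.sum_congr rfl fun j _ => by ring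
  have ha1 : ∀ (τ : Fin d → Fin d) (i : Fin d) (j : Fin n), |v j (τ i) / β| ≤ 1 := by
    intro τ i j
    rw [abs_div, abs_of_pos hβ0, div_le_one hβ0]
    exact hvβ j (τ i)
  have hcol : ∀ (τ : Equiv.Perm (Fin d)) (j : Fin n),
      ∑ i, (v j (τ i) / β) ^ 2 ≤ (1 / β) ^ 2 := by
    intro τ j
    rw [Equiv.sum_comp τ (fun i => (v j i / β) ^ 2)]
    have h1 : ∑ i, (v j i / β) ^ 2 = (1 / β) ^ 2 * ∑ i, (v j i) ^ 2 := by
      rw [Finset.mul_sum]
      exact Finset.sum_congr rfl fun i _ => by ring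
    rw [h1]
    have h2 := col_le v hv j
    have h3 : (0 : ℝ) ≤ (1 / β) ^ 2 := by positivity
    nlinarith
  have hcond : ∀ (u z : ℝ), u / β < |z / β| ↔ u < |z| := by
    intro u z
    rw [abs_div, abs_of_pos hβ0, div_lt_div_iff_of_pos_right hβ0]
  have hCu : ∀ u : ℝ, C ≤ u → C * Real.sqrt ((1 / β) ^ 2) ≤ u / β := by
    intro u hu
    rw [hst, mul_one_div]
    exact div_le_div_of_nonneg_right hu hβ0.le
  have hbound : ∀ u : ℝ, C ≤ u →
      K * Real.exp (-(c * ((1 / β) ^ 2 / (1 + Real.log ((1 / β) ^ 2)) ^ 5)))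
        * Real.exp (-(c * K19Kom2.G3 ((1 / β) ^ 2) (u / β)))
      ≤ K * Real.exp (-(c / 32 * (rate β + gain β u))) := by
    intro u hu
    rw [mul_assoc, ← Real.exp_add]
    apply mul_le_mul_of_nonneg_left _ hK.le
    apply Real.exp_le_exp.mpr
    have h1 := mul_le_mul_of_nonneg_left (rate_le hβ0 hβ1) hc.le
    have h2 := mul_le_mul_of_nonneg_left (gain_le hβ0 hβ1 (hC.le.trans hu)) hc.le
    linarith
  refine ⟨?_, fun σ => ?_⟩
  · obtain ⟨⟨w, hw0, hw1, hw2⟩, -⟩ := hM d n (fun i j => v j i / β) x ((1 / β) ^ 2) ht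
      (ha1 id) (hcol (Equiv.refl _)) hx
    refine ⟨w, hw0, hw1, fun i u hu => ?_⟩
    have h1 := hw2 i (u / β) (hCu u hu)
    have h2 : ∀ s : Fin n → Bool,
        ∑ j, (v j i / β) * ((if s j then (1 : ℝ) else -1) - x j) = dev v x s i / β :=
      fun s => hrow id s i
    simp only [h2, hcond] at h1
    exact h1.trans (hbound u hu)
  · obtain ⟨-, s, hs⟩ := hM d n (fun i j => v j (σ i) / β) x ((1 / β) ^ 2) ht
      (ha1 σ) (hcol σ) hx
    refine ⟨s, fun m hm u hu => ?_⟩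
    have h1 := hs m hm (u / β) (hCu u hu)
    have h2 : ∀ i : Fin d,
        ∑ j, (v j (σ i) / β) * ((if s j then (1 : ℝ) else -1) - x j) = dev v x s (σ i) / β :=
      fun i => hrow σ s i
    simp only [h2, hcond] at h1
    exact h1.trans (mul_le_mul_of_nonneg_right (hbound u hu) (Nat.cast_nonneg _))

end Pool.Agent.Results.MP_c81d26_co.RandomSignings
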